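import Pool.Agent.Results.MP_9bafdc_mp.NotStar
import Pool.Agent.Y301.TB.Three
import Pool.Agent.Y301.TB.Four
import Pool.Agent.Y301.TB.Five

set_option autoImplicit false

namespace Pool.Agent.Results.MP_9bafdc_mp.Classification

open MvPolynomial
open Pool.Agent.Results.MP_9bafdc_mp.NotStar (Pol IsTraceBracket IsHomogeneousBracket FormStar)

/-- **Q1, complete answer for all parameters.** For every degree `k ≥ 2`, every number `N ≥ 1` of
matrices and every matrix size `m ≥ 1`: every homogeneous trace Poisson bracket of degree `k` is of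
form (*) if and only if `m = 1` or `N = 1, m = 2`. -/
theorem result (k N m : ℕ) (hk : 2 ≤ k) (hN : 1 ≤ N) (hm : 1 ≤ m) :
    (∀ B : Pol N m → Pol N m → Pol N m,
      IsTraceBracket B → IsHomogeneousBracket k B → FormStar k B) ↔ (m = 1 ∨ (N = 1 ∧ m = 2)) := by
  obtain ⟨k, rfl⟩ : ∃ k', k = k' + 2 := ⟨k - 2, by omega⟩
  constructor
  · intro h
    by_contra hne
    rcases Nat.lt_or_ge N 2 with h2 | h2
    · obtain rfl : N = 1 := by omega
      obtain ⟨m, rfl⟩ : ∃ m', m = m' + 3 := ⟨m - 3, by omega⟩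
      exact Pool.Agent.Y301.TB.not_star k (h _ (Pool.Agent.Y301.TB.trace_br (k + 1))
        (Pool.Agent.Y301.TB.hom_br (k + 1)))
    · obtain ⟨N, rfl⟩ : ∃ N', N = N' + 2 := ⟨N - 2, by omega⟩
      obtain ⟨m, rfl⟩ : ∃ m', m = m' + 2 := ⟨m - 2, by omega⟩
      exact Pool.Agent.Y301.TB.Two2.not_star2 k
        (h _ (Pool.Agent.Results.MP_9bafdc_mp.NotStar.trace_br (k + 1))
          (Pool.Agent.Results.MP_9bafdc_mp.NotStar.hom_br (k + 1)))
  · rintro (rfl | ⟨rfl, rfl⟩) B hB hh
    · exact Pool.Agent.Y301.TB.form_one (k + 2) (by omega) B hh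
    · exact Pool.Agent.Y301.TB.OneTwo.form_one_two (k + 2) hB hh

end Pool.Agent.Results.MP_9bafdc_mp.Classification
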