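import Pool.Agent.Results.MP_9bafdc_mp.NotStar
import Pool.Agent.Y301.TB.Six

set_option autoImplicit false

namespace Pool.Agent.Results.MP_9bafdc_mp.OneMatrixFormula

open MvPolynomial
open Pool.Agent.Results.MP_9bafdc_mp.NotStar (Pol IsTraceBracket)

/-- the value of the polynomial function `f` of one matrix at the matrix `x` -/
noncomputable def value {m : ℕ} (x : Matrix (Fin m) (Fin m) ℂ) (f : Pol 1 m) : ℂ :=
  aeval (fun a => x a.2.1 a.2.2) f

/-- **General formula for one matrix.** Let `B` be a trace Poisson bracket (homogeneous or not) on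
the entries of one `m × m` matrix. Then form (*) holds with constants replaced by functions of the
spectrum: for pairwise distinct eigenvalues `l` there is an antisymmetric array `s` such that at
every matrix `x` with these eigenvalues `{x_ij, x_pq} = ∑ s_ab (x^a)_iq (x^b)_pj`. -/
theorem result (m : ℕ) (B : Pol 1 m → Pol 1 m → Pol 1 m) (hB : IsTraceBracket B)
    (l : Fin m → ℂ) (hl : Function.Injective l) :
    ∃ s : Fin m → Fin m → ℂ, (∀ a b, s a b = - s b a) ∧
      ∀ (g : (Matrix (Fin m) (Fin m) ℂ)ˣ) (x : Matrix (Fin m) (Fin m) ℂ),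
        x = g.val * Matrix.diagonal l * g⁻¹.val → ∀ i j p q : Fin m,
        value x (B (X (0, i, j)) (X (0, p, q)))
          = ∑ a : Fin m, ∑ b : Fin m, s a b * ((x ^ (a : ℕ)) i q * (x ^ (b : ℕ)) p j) := by
  obtain ⟨s, h1, h2⟩ := Pool.Agent.Y301.TB.Gen.formula hB l hl
  refine ⟨s, h1, ?_⟩
  rintro g x rfl i j p q
  exact h2 g i j p q

end Pool.Agent.Results.MP_9bafdc_mp.OneMatrixFormula
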